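import Pool.Agent.H960.FV.Bas

/-!
Blocks of coordinates of an infinite product measure (helper729 for helper960).
-/

open MeasureTheory Filter Topology

namespace Pool.Agent.H729.FV

open H960FV

/-- injective reindexing preserves the product measure -/
theorem reidx_map {I J T : Type} [MeasurableSpace T] (ν : Measure T) [IsProbabilityMeasure ν] (e : J → I)
    (he : Function.Injective e) :
    (Measure.infinitePi fun _ : I => ν).map (fun (W : I → T) (j : J) => W (e j)) =
      Measure.infinitePi fun _ : J => ν := by
  classical
  apply Measure.eq_infinitePi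
  intro s t ht
  have hm : Measurable (fun (W : I → T) (j : J) => W (e j)) := by fun_prop
  obtain ⟨t', ht'⟩ : ∃ t' : I → Set T, t' = Function.extend e t (fun _ => Set.univ) := ⟨_, rfl⟩
  have hte : ∀ j, t' (e j) = t j := fun j => by rw [ht', he.extend_apply]
  have hpre : (fun (W : I → T) (j : J) => W (e j)) ⁻¹' (Set.pi s t) = Set.pi (s.image e : Finset I) t' := by
    ext W
    constructor
    · intro h i hi
      have hi' : i ∈ s.image e := hi
      obtain ⟨j, hj, rfl⟩ := Finset.mem_image.1 hi'
      rw [hte]
      exact h j hj
    · intro h j hj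
      have h1 := h (e j) (Finset.mem_coe.2 (Finset.mem_image_of_mem e hj))
      rw [hte] at h1
      exact h1
  rw [Measure.map_apply hm (MeasurableSet.pi s.countable_toSet fun j _ => ht j), hpre,
    Measure.infinitePi_pi (fun _ : I => ν) (s := s.image e) (t := t') (fun i hi => by
      obtain ⟨j, hj, rfl⟩ := Finset.mem_image.1 hi
      rw [hte]
      exact ht j), Finset.prod_image (fun a _ b _ h => he h)]
  exact Finset.prod_congr rfl fun j _ => by rw [hte]

theorem reidx : S_reidx := by
  intro I J _ _ T _ ν _ e he
  exact ⟨by fun_prop, reidx_map ν e he⟩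

theorem blockmap : S_blockmap := by
  intro I J _ _ n A _ _ _ α _ e he
  have h1 := reidx_map α e he
  have h2 : (Measure.infinitePi fun _ : J × Fin n => α).map (MeasurableEquiv.curry J (Fin n) A) =
      Measure.infinitePi fun _ : J => Measure.infinitePi fun _ : Fin n => α :=
    Measure.infinitePi_map_curry (fun (_ : J) (_ : Fin n) => α)
  have h3 : (Measure.infinitePi fun _ : Fin n => α) = Measure.pi fun _ : Fin n => α :=
    Measure.infinitePi_eq_pi _
  refine ⟨by fun_prop, ?_⟩
  have hm : Measurable (fun (W : I → A) (p : J × Fin n) => W (e p)) := by fun_prop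
  rw [← h1, Measure.map_map (MeasurableEquiv.curry J (Fin n) A).measurable hm, h3] at h2
  exact h2

end Pool.Agent.H729.FV
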